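import Pool.Agent.H55.CU.Targets

/-!
# The sharp upper bound of the slope of the copolymer critical curve (MP_65efe8_pr): row CNV
-/

set_option autoImplicit false

open MeasureTheory ProbabilityTheory Filter Topology
open scoped ENNReal
open Pool.Agent.H95 Pool.Agent.H95.Cop Pool.Agent.H96.Cop Pool.Agent.H55.CU

namespace Pool.Agent.H89.CU

/-- CNV: from increments of powers to powers of increments. -/
theorem pf_CNV : T_CNV := by
  intro d r D θ hd hr hD hθ1 hθ2 hDp
  have hd0 : 0 < d := by linarith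
  have hy : 1 ≤ d + 4 * r := by linarith
  have hy0 : 0 < d + 4 * r := by linarith
  obtain ⟨y, hydef⟩ : ∃ y, y = d + 4 * r := ⟨_, rfl⟩
  rw [← hydef] at hD hy hy0 ⊢
  have hdy : 0 < d / y := div_pos hd0 hy0
  have hb : (1 + (d / y - 1)) ^ θ ≤ 1 + θ * (d / y - 1) :=
    rpow_one_add_le_one_add_mul_self (by linarith) (by linarith) hθ2
  have e0 : 1 + (d / y - 1) = d / y := by ring
  rw [e0] at hb
  have hyθ : 0 < y ^ θ := Real.rpow_pos_of_pos hy0 _
  have h1 : d ^ θ = y ^ θ * (d / y) ^ θ := by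
    rw [Real.div_rpow hd0.le hy0.le]
    field_simp
  have h2 : y ^ θ = y * y ^ (θ - 1) := by
    rw [Real.rpow_sub_one hy0.ne']
    field_simp
  have hw : 0 < y ^ (1 - θ) := Real.rpow_pos_of_pos hy0 _
  have h3 : 1 / 2 ≤ y ^ (θ - 1) := by
    have e1 : y ^ (θ - 1) = (y ^ (1 - θ))⁻¹ := by
      rw [← Real.rpow_neg hy0.le]
      congr 1
      ring
    have h4 : y ^ (1 - θ) ≤ 2 :=
      le_trans (Real.rpow_le_rpow hy0.le hD (by linarith)) hDp
    rw [e1, one_div]
    exact inv_anti₀ hw h4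
  have h5 : d ^ θ ≤ y ^ θ - θ * y ^ (θ - 1) * (4 * r) := by
    rw [h1]
    calc y ^ θ * (d / y) ^ θ ≤ y ^ θ * (1 + θ * (d / y - 1)) :=
          mul_le_mul_of_nonneg_left hb hyθ.le
      _ = y ^ θ + θ * ((y * y ^ (θ - 1)) * (d / y - 1)) := by rw [← h2]; ring
      _ = y ^ θ + θ * (y ^ (θ - 1) * (d - y)) := by
          congr 2
          field_simp
      _ = y ^ θ - θ * y ^ (θ - 1) * (4 * r) := by
          have : d - y = -(4 * r) := by linarith
          rw [this]
          ring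
  have h6 : 1 / 4 ≤ θ * y ^ (θ - 1) := by nlinarith
  nlinarith

end Pool.Agent.H89.CU
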